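import Pool.Agent.H78.Diam.Main
import Pool.Agent.H78.Diam.Exp

/-!
# The diameter of `Diff_0(S^n)` is finite for all `s < 1 + n/p`

For every `n ≥ 2`, `p ≥ 1` and `0 ≤ s < 1 + n/p` the identity component of the group of smooth
diffeomorphisms of the round sphere `S^n` has finite diameter for the right-invariant `W^{s,p}`
Finsler metric.

Idea of the proof.  Contracting a ball of radius `1` to a ball of radius `2^{-m}` can be done in
`m` steps, the `j`-th of which moves only points at distance at most `5 * 2^{-j}` from the centre,
with Eulerian velocity of size `2^{-j}`; its cost is at most `C 2^{-j(1+n/p-s)}`, so the total cost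
is bounded independently of `m`.  A diffeomorphism isotopic to the identity through diffeomorphisms
fixing a neighbourhood of a point is conjugated by such a contraction (at bounded cost) to one
supported in a ball, and then, by another contraction (at bounded cost), to one supported in a ball
of radius `2^{-m}`, whose cost tends to zero.  Finally every element of `Diff_0(S^n)` is a product
of two diffeomorphisms of this kind.
-/

open scoped ContDiff Manifold ENNReal Topology

namespace Pool.Agent.Results.MP_395ed7_gt.FiniteDiameter

open Pool.Agent.H78.Diam

/-- For all `n ≥ 2`, `p ≥ 1` and `0 ≤ s < 1 + n/p`, the diameter of `Diff_0(S^n)` for the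
right-invariant `W^{s,p}` Finsler metric, defined through exponential charts on geodesic balls and
any subordinate partition of unity, is finite. -/
theorem result (n : ℕ) (hn : 2 ≤ n) (G : GeodesicAtlas n) (s p : ℝ) (hp : 1 ≤ p) (hs : 0 ≤ s)
    (hsp : s < 1 + (n : ℝ) / p) : diam (𝓡 n) (incl n) (G.toAtlas.norm s p) < ⊤ :=
  diam_lt_top hn G.toAtlas hs hp hsp

end Pool.Agent.Results.MP_395ed7_gt.FiniteDiameter
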